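import Pool.Agent.W2helper26.DT.FIN
import Pool.Agent.W2helper26.DT.PAD

/-!
# How sparse are the languages in `PP` outside the polynomial hierarchy?

The classes relative to an oracle are the ones of `Pool.Agent.H620R2.Gauge.Defs` (`IsP`, `IsPHpoly`,
`IsPSPACE`) and of `Pool.Agent.W2helper57.PPH.Defs` (`IsPP`); `census L n` is the number of the words of
length `n` in the language `L`.

Let `s` be any function with `s n ≤ 2 ^ (n ^ o(1))`. There are oracles `A` such that `PP` is not
contained in the polynomial hierarchy with polynomial advice, although every language of `PSPACE` with at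
most `s n` words of length `n`, for almost all `n`, is in `P`. (For instance all tally languages and
all sparse languages of `PSPACE` are in `P`.) Even more, for every language of `PSPACE` its part on
the lengths where it has at most `s n` words is in `P`. These oracles are many: they are not a null set
for any gauge `f` with `2 ^ (log₂ N) ^ ε < f N`, so the set has Hausdorff dimension one.

The bound `2 ^ (n ^ o(1))` cannot be improved: relative to every oracle with `PP` outside the polynomial
hierarchy with advice, for each `ε > 0` there is such a language with at most `2 ^ (n ^ ε)` words of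
every length `n` (padding).

Proof. The oracle is a random oracle into which the languages of `PSPACE` are coded, but at each
length only if there are at most `s n` words to be coded. So the coded part of the first `N` bits
takes only `2 ^ (2 ^ ((log N) ^ o(1)))` values. For each fixed value, by a random restriction, the
probability that an algorithm of the hierarchy with advice computes the parities of `2 ^ u` disjoint
blocks is at most about `2 ^ (- 2 ^ u)`, `u = Ω(n)`; hence the union bound over all the values works.
-/

set_option autoImplicit false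

namespace Pool.Agent.Results.MP_a54059_lc.DensityThreshold

open Filter Pool.Agent.NPC Pool.Agent.H620R2.Gauge Pool.Agent.W2helper26.DT

/-- the oracles relative to which the part of each language of `PSPACE` on the lengths `n` where it
has at most `s n` words is in `P`, the languages of `PSPACE` with at most `s n` words of length `n` for
almost all `n` are in `P`, and some language of `PP` is not in the polynomial hierarchy with
polynomial advice -/
def Good (s : ℕ → ℕ) : Set Oracle :=
  {A | (∀ L, IsPSPACE A L → IsP A {x | x ∈ L ∧ census L x.length ≤ s x.length}) ∧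
    (∀ L, IsPSPACE A L → (∀ᶠ n in atTop, census L n ≤ s n) → IsP A L) ∧
    ∃ L, IsPP A L ∧ ¬ IsPHpoly A L}

theorem result :
    -- the oracles, for `s n = 2 ^ (n ^ o(1))`
    (∀ s : ℕ → ℕ, (∀ ε : ℝ, 0 < ε → ∀ᶠ n : ℕ in atTop, (s n : ℝ) ≤ 2 ^ ((n : ℝ) ^ ε)) →
      (∃ A, A ∈ Good s) ∧
      ∀ (f : ℕ → ℝ) (ε : ℝ), 0 < ε → (∀ᶠ N : ℕ in atTop, 2 ^ (Real.logb 2 N) ^ ε < f N) →
        ¬ Null f (Good s)) ∧
    -- padding: the bound is optimal relative to every oracle
    (∀ (A : Oracle) (L : Set (List Bool)), IsPP A L → ¬ IsPHpoly A L → ∀ ε : ℝ, 0 < ε →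
      ∃ L', IsPP A L' ∧ ¬ IsPHpoly A L' ∧ ∀ n : ℕ, (census L' n : ℝ) ≤ 2 ^ ((n : ℝ) ^ ε)) := by
  have key : ∀ s : ℕ → ℕ, (∀ ε : ℝ, 0 < ε → ∀ᶠ n : ℕ in atTop, (s n : ℝ) ≤ 2 ^ ((n : ℝ) ^ ε)) →
      ∀ (f : ℕ → ℝ) (ε : ℝ), 0 < ε → (∀ᶠ N : ℕ in atTop, 2 ^ (Real.logb 2 N) ^ ε < f N) →
        ¬ Null f (Good s) := by
    intro s hs f ε hε hf hN
    refine not_null_sparse s hs f ε hε hf fun δ hδ => ?_
    obtain ⟨S, h1, h2⟩ := hN δ hδ
    refine ⟨S, ?_, h2⟩
    rintro A ⟨h3, h4⟩
    exact h1 A ⟨h3, fun L hL hc => isP_of_sparse (h3 L hL) hc, Thr.lang A, Thr.isPP_lang A,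
      fun h => h4 (parLang_of_lang h)⟩
  refine ⟨fun s hs => ⟨?_, key s hs⟩, fun A L h1 h2 ε hε => sparser h1 h2 ε hε⟩
  by_contra hne
  push Not at hne
  refine key s hs (fun N => 2 ^ (Real.logb 2 N) ^ (1 : ℝ) + 1) 1 one_pos
    (Eventually.of_forall fun N => by linarith) fun δ hδ => ?_
  exact ⟨∅, fun A hA => absurd hA (hne A), by simp⟩

end Pool.Agent.Results.MP_a54059_lc.DensityThreshold
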