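import Pool.Agent.W2helper57.PPH.Lang
import Pool.Agent.H620R2.Gauge.NonNull
import Pool.Agent.H620R2.Gauge.Cover
import Pool.Agent.H620R2.Gauge.U2

/-!
# How many oracles put PP inside the polynomial hierarchy

The classes relative to an oracle are the ones of `Pool.Agent.H620R2.Gauge.Defs` (`IsP`, `IsPH`,
`IsPHpoly`, `IsPSPACE`) and of `Pool.Agent.W2helper57.PPH.Defs` (`IsPP`).
-/

namespace Pool.Agent.Results.MP_a54059_lc.GaugeOfInclusion

open Pool.Agent.NPC Pool.Agent.H620R2.Gauge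

/-- For every gauge `f`, the set of the oracles relative to which `PP` is contained in the
polynomial hierarchy is a null set for `f` if and only if, for every `ε > 0`, there are infinitely
many `N` with `f N ≤ 2 ^ (log₂ N) ^ ε`. The same holds for the inclusion of `PP` in the polynomial
hierarchy with polynomial advice, for the inclusion of `PP` in `P`, and for every set of oracles
which consists of oracles with the former property and contains all oracles that are hard for
their `PSPACE`. -/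
theorem result :
    (∀ f : ℕ → ℝ, Null f {A : Oracle | ∀ L, IsPP A L → IsPH A L} ↔
      ∀ ε : ℝ, 0 < ε → ∃ᶠ N : ℕ in Filter.atTop, f N ≤ 2 ^ (Real.logb 2 N) ^ ε) ∧
    (∀ f : ℕ → ℝ, Null f {A : Oracle | ∀ L, IsPP A L → IsPHpoly A L} ↔
      ∀ ε : ℝ, 0 < ε → ∃ᶠ N : ℕ in Filter.atTop, f N ≤ 2 ^ (Real.logb 2 N) ^ ε) ∧
    (∀ f : ℕ → ℝ, Null f {A : Oracle | ∀ L, IsPP A L → IsP A L} ↔
      ∀ ε : ℝ, 0 < ε → ∃ᶠ N : ℕ in Filter.atTop, f N ≤ 2 ^ (Real.logb 2 N) ^ ε) ∧
    (∀ (f : ℕ → ℝ) (O : Set Oracle), (∀ A ∈ O, ∀ L, IsPP A L → IsPHpoly A L) →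
      (∀ A : Oracle, (∀ L, IsPSPACE A L → Reduces L {x | A x = true}) → A ∈ O) →
      (Null f O ↔
        ∀ ε : ℝ, 0 < ε → ∃ᶠ N : ℕ in Filter.atTop, f N ≤ 2 ^ (Real.logb 2 N) ^ ε)) := by
  have key : ∀ (f : ℕ → ℝ) (O : Set Oracle), (∀ A ∈ O, ∀ L, IsPP A L → IsPHpoly A L) →
      (∀ A : Oracle, (∀ L, IsPSPACE A L → Reduces L {x | A x = true}) → A ∈ O) →
      (Null f O ↔
        ∀ ε : ℝ, 0 < ε → ∃ᶠ N : ℕ in Filter.atTop, f N ≤ 2 ^ (Real.logb 2 N) ^ ε) := by
    intro f O hu hl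
    constructor
    · intro hN ε hε
      by_contra h
      rw [Filter.not_frequently] at h
      exact not_null f ε hε (h.mono fun N hN => not_le.1 hN) O hl hN
    · intro hf
      exact null_of_frequently f hf O fun A hA => parLang_of_lang (hu A hA _ (Thr.isPP_lang A))
  have hP : ∀ A : Oracle, (∀ L, IsPSPACE A L → Reduces L {x | A x = true}) →
      ∀ L, IsPP A L → IsP A L := fun A hA L hL => isP_of_reduces (hA L hL.isPSPACE)
  exact ⟨fun f => key f _ (fun A hA L hL => (hA L hL).isPHpoly)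
      (fun A hA L hL => (hP A hA L hL).isPH),
    fun f => key f _ (fun A hA => hA) (fun A hA L hL => (hP A hA L hL).isPHpoly),
    fun f => key f _ (fun A hA L hL => (hA L hL).isPHpoly) hP, key⟩

end Pool.Agent.Results.MP_a54059_lc.GaugeOfInclusion
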