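import Pool.Agent.W2helper26.MC.Fin
import Pool.Agent.W2helper26.MC.PhIn

/-!
# `P = PH = Mod_p P`, but `PP` is not in `P/poly`

The classes relative to an oracle are the ones of `Pool.Agent.H620R2.Gauge.Defs` (`IsP`, `IsPH`,
`IsPHpoly`), of `Pool.Agent.H620R2.Gauge2.Defs` (`WithAdvice`) and of `Pool.Agent.W2helper57.PPH.Defs`
(`IsPP`). Let `p` be a prime. `MPH p A` (file `Pool.Agent.W2helper26.MC.Stm`) is the smallest class of
languages which contains `P` relative to `A` and is closed under complement, polynomially bounded
existential quantification and polynomially bounded counting modulo `p`. It contains the polynomial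
hierarchy and `Mod_p P` relative to `A`.

We show that there are oracles `A` with `MPH p A = P`, in particular `P = PH = Mod_p P`, although `PP` is
not contained in `P/poly` relative to `A`; and we determine, for every gauge, whether the set of these
oracles is a null set.

Proof. The oracle is a random oracle, into which all questions of the following forms are coded,
including questions on the coded part: is there a string of length `q |x|` such that the algorithm
`M` accepts; is the number of these strings congruent to `a` modulo `p`. The answers are given by circuits of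
constant depth with conjunctions, disjunctions and `Mod_p` gates in the random part. The language in `PP` is the
majority in the blocks of the random part. For each word of advice the probability that an
algorithm with this advice is right on the `8 m` blocks used, `m = 2 ^ Ω(n)`, is at most `2 ^ (- m + 1)`.
This is a direct product theorem for majority and circuits of depth `d` and size `2 ^ (n ^ o(1))` with
`Mod_p` gates; it is proved by the method of Razborov and Smolensky, with a dimension count for
the functions on a product of cubes. Hence the union bound over all advice works.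
-/

set_option autoImplicit false

namespace Pool.Agent.Results.MP_a54059_lc.ModularCollapse

open Filter Pool.Agent.NPC Pool.Agent.H620R2.Gauge Pool.Agent.W2helper26.MC

/-- the oracles `A` relative to which `P` is closed under polynomially bounded quantification and
counting modulo `p`, the polynomial hierarchy is `P`, and some language of `PP` is not in
`P` with polynomial advice (here `P` is the same as `MPH p A` and as the polynomial hierarchy) -/
def World (p : ℕ) : Set Oracle :=
  {A | (∀ L, MPH p A L → IsP A L) ∧ (∀ L, IsPH A L → IsP A L) ∧
    ∃ L, IsPP A L ∧ ¬ WithAdvice (MPH p A) L ∧ ¬ WithAdvice (IsP A) L ∧ ¬ IsPHpoly A L}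

theorem result (p : ℕ) (hp : p.Prime) :
    (∃ A, A ∈ World p) ∧
    ∀ f : ℕ → ℝ, Null f (World p) ↔
      ∀ ε : ℝ, 0 < ε → ∃ᶠ N : ℕ in atTop, f N ≤ 2 ^ (Real.logb 2 N) ^ ε := by
  have : Fact p.Prime := ⟨hp⟩
  have key : ∀ (f : ℕ → ℝ) (ε : ℝ), 0 < ε → (∀ᶠ N : ℕ in atTop, 2 ^ (Real.logb 2 N) ^ ε < f N) →
      ¬ Null f (World p) := by
    intro f ε hε hf hN
    refine not_null_mc p f ε hε hf fun δ hδ => ?_
    obtain ⟨S, h1, h2⟩ := hN δ hδ
    refine ⟨S, ?_, h2⟩
    rintro A ⟨h3, h4, h5⟩
    refine h1 A ⟨h3, fun L hL => ph_le h3 hL, _, h4, h5, ?_, fun h => h5 (phpoly_le h3 h)⟩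
    rintro ⟨L', a, q, hL', ha, hx⟩
    exact h5 ⟨L', a, q, MPH.base hL', ha, hx⟩
  refine ⟨?_, fun f => ⟨?_, ?_⟩⟩
  · by_contra hne
    push Not at hne
    refine key (fun N => 2 ^ (Real.logb 2 N) ^ (1 : ℝ) + 1) 1 one_pos
      (Eventually.of_forall fun N => by linarith) fun δ hδ => ?_
    exact ⟨∅, fun A hA => absurd hA (hne A), by simp⟩
  · intro hN ε hε
    by_contra h
    rw [Filter.not_frequently] at h
    exact key f ε hε (h.mono fun N hN => not_le.1 hN) hN
  · intro hf
    exact nullN hf _ fun A hA => (hit_compl hA.1).isNP.withAdvice

end Pool.Agent.Results.MP_a54059_lc.ModularCollapse
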